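import Mathlib
import Pool.Agent.Helper227.Defs
import Pool.Agent.Helper227.Mach
import Pool.Agent.H561R3.SC.Strat
import Pool.Agent.H561R3.SC.Order
import Pool.Agent.H561R3.SC.Main
import Pool.Agent.H561R3.SC.Neg

set_option autoImplicit false

namespace Pool.Agent.Results.MP_c57dc8_lc.SublinearDeep

open Filter Pool.Agent.Helper227 Pool.Agent.H561R3.SC

/-- There is an order function `f` with `f(n)/n → 0` such that for every universal prefix-free
machine and every `c`, the class `SC(f, c)` is deep (with respect to every left-c.e. continuous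
semimeasure, in particular with respect to a universal one) and negligible. -/
theorem result : ∃ f : ℕ → ℕ, Computable f ∧ Monotone f ∧ Tendsto f atTop atTop ∧
    Tendsto (fun n : ℕ => (f n : ℝ) / n) atTop (nhds 0) ∧
    ∀ U : List Bool →. List Bool, IsUniversal U → ∀ c : ℕ,
      (∀ ν : List Bool → ℝ, IsSemimeasure ν → LeftCE ν → Deep ν (SC U f c)) ∧
      lam {Y | ∃ X ∈ SC U f c, TLe X Y} = 0 := by
  refine ⟨FF, pr_FF.to_comp, FF_mono, FF_tendsto, FF_sublinear, fun U hU c => ?_⟩
  have h : ∀ ν : List Bool → ℝ, IsSemimeasure ν → LeftCE ν → Deep ν (SC U FF c) :=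
    fun ν hν hce => deep_FF hU c hν hce
  exact ⟨h, negligible_of h⟩

end Pool.Agent.Results.MP_c57dc8_lc.SublinearDeep
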